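import Mathlib

set_option autoImplicit false
open MvPolynomial

namespace Pool.Agent.Results.MP_a8e883_al.Kneser

/-- vertices of the Kneser graph -/
abbrev V (n k : ℕ) : Type := {s : Finset (Fin n) // s.card = k}

/-- closed neighbourhood (for k at least 1 a vertex is not disjoint from itself) -/
def N {n k : ℕ} (a : V n k) : Finset (V n k) := {w | w = a ∨ Disjoint w.1 a.1}

noncomputable def NI (K : Type*) [Field K] (n k : ℕ) : Ideal (MvPolynomial (V n k) K) :=
  Ideal.span (Set.range fun a : V n k => ∏ w ∈ N a, X w)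

variable {K : Type*} [Field K] {n k : ℕ}

lemma mem_N {a w : V n k} : w ∈ N a ↔ w = a ∨ Disjoint w.1 a.1 := by simp [N]

noncomputable def ch (a : V n k) : V n k →₀ ℕ := ∑ w ∈ N a, Finsupp.single w 1

lemma ch_apply (a w : V n k) : ch a w = if w ∈ N a then 1 else 0 := by
  simp [ch, Finsupp.finsetSum_apply, Finsupp.single_apply]

lemma mem_sq {f : MvPolynomial (V n k) K} :
    f ∈ NI K n k ^ 2 ↔ ∀ α ∈ f.support, ∃ a b, ch a + ch b ≤ α := by
  have e : ∀ a : V n k, (∏ w ∈ N a, X w : MvPolynomial (V n k) K) = monomial (ch a) 1 := fun a => by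
    rw [ch, monomial_sum_one]; rfl
  have : NI K n k ^ 2 = Ideal.span ((fun s => monomial s (1 : K)) ''
      {s | ∃ a b : V n k, s = ch a + ch b}) := by
    rw [pow_two, NI, Ideal.span_mul_span']
    congr 1
    ext p
    simp only [e, Set.mem_mul, Set.mem_range, Set.mem_image, Set.mem_ofPred_eq]
    constructor
    · rintro ⟨_, ⟨a, rfl⟩, _, ⟨b, rfl⟩, rfl⟩
      exact ⟨_, ⟨a, b, rfl⟩, by simp [monomial_mul]⟩
    · rintro ⟨_, ⟨a, b, rfl⟩, rfl⟩
      exact ⟨_, ⟨a, rfl⟩, _, ⟨b, rfl⟩, by simp [monomial_mul]⟩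
  rw [this, mem_ideal_span_monomial_image]
  exact forall₂_congr fun α _ =>
    ⟨fun ⟨_, ⟨a, b, e⟩, h⟩ => ⟨a, b, e ▸ h⟩, fun ⟨a, b, h⟩ => ⟨_, ⟨a, b, rfl⟩, h⟩⟩

lemma swap (hk : 1 ≤ k) (v : V n k) {x y : Fin n} (hx : x ∈ v.1) (hy : y ∉ v.1) :
    (insert y (v.1.erase x)).card = k := by
  rw [Finset.card_insert_of_notMem (by simp [hy]), Finset.card_erase_of_mem hx, v.2]; omega

lemma comb (hk : 1 ≤ k) (hn : 2 * k ≤ n) (α : V n k →₀ ℕ) (h0 : ∀ a b, ¬ ch a + ch b ≤ α)
    (h : ∀ v, ∃ a b, ch a + ch b ≤ Finsupp.single v 1 + α) : 2 ≤ k ∧ n = 3 * k - 1 := by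
  have le1 : ∀ a w : V n k, ch a w ≤ 1 := fun a w => by rw [ch_apply]; split_ifs <;> omega
  have off : ∀ {v a b : V n k}, ch a + ch b ≤ Finsupp.single v 1 + α →
      ∀ w, w ≠ v → ch a w + ch b w ≤ α w := fun hab w hw => by simpa [hw.symm] using hab w
  have h1 : ∀ v, α v ≤ 1 := fun v => by
    by_contra hv
    obtain ⟨a, b, hab⟩ := h v
    refine h0 a b fun w => ?_
    by_cases hw : w = v
    · have := le1 a w; have := le1 b w; subst hw; simp only [Finsupp.add_apply]; omega
    · exact off hab w hw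
  have meet : ∀ a b, ch a ≤ α → ch b ≤ α → ∃ w, w ∈ N a ∧ w ∈ N b := fun a b ha hb => by
    by_contra hn
    push Not at hn
    refine h0 a b fun w => ?_
    have := ha w; have := hb w; have := hn w
    simp only [Finsupp.add_apply, ch_apply] at *
    split_ifs at * <;> simp_all
  have sub : ∀ s : Finset (Fin n), k ≤ sᶜ.card → ∃ w : V n k, Disjoint w.1 s := fun s hs => by
    obtain ⟨t, ht, hc⟩ := Finset.exists_subset_card_eq hs
    exact ⟨⟨t, hc⟩, Finset.subset_compl_iff_disjoint_right.1 ht⟩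
  have nd : ∀ a : V n k, ¬ Disjoint a.1 a.1 := fun a h => by
    have := a.2; rw [disjoint_self.1 h] at this; simp at this; omega
  have key : ∀ v, α v ≠ 0 → ∃ b b', ch b ≤ α ∧ ch b' ≤ α ∧ b ≠ b' ∧ ¬ Disjoint b.1 b'.1 ∧
      b.1 ∪ b'.1 = v.1ᶜ := fun v hv => by
    obtain ⟨a, b, hab⟩ := h v
    have ha : ch a ≤ α := fun w => by
      by_cases hw : w = v
      · have := le1 a w; subst hw; omega
      · have := off hab w hw; omega
    have hb : ch b ≤ α := fun w => by
      by_cases hw : w = v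
      · have := le1 b w; subst hw; omega
      · have := off hab w hw; omega
    have u : ∀ w, w ∈ N a → w ∈ N b → w = v := fun w p q => by
      by_contra hw
      have := off hab w hw; have := h1 w
      simp only [ch_apply, p, q, if_true] at *; omega
    have ne : a ≠ b := by
      rintro rfl
      obtain ⟨w, hw⟩ := sub a.1 (by rw [Finset.card_compl, a.2]; simp; omega)
      have e1 := u w (mem_N.2 (.inr hw)) (mem_N.2 (.inr hw))
      have e2 := u a (mem_N.2 (.inl rfl)) (mem_N.2 (.inl rfl))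
      exact nd a (by rwa [e1, ← e2] at hw)
    have nj : ¬ Disjoint a.1 b.1 := fun hd => ne
      ((u a (mem_N.2 (.inl rfl)) (mem_N.2 (.inr hd))).trans
        (u b (mem_N.2 (.inr hd.symm)) (mem_N.2 (.inl rfl))).symm)
    obtain ⟨w, p, q⟩ := meet a b ha hb
    obtain rfl := u w p q
    have da : Disjoint w.1 a.1 := (mem_N.1 p).resolve_left fun e =>
      (mem_N.1 q).elim (fun e' => ne (e.symm.trans e')) fun e' => nj (e ▸ e')
    have db : Disjoint w.1 b.1 := (mem_N.1 q).resolve_left fun e => nj (e ▸ da).symm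
    refine ⟨a, b, ha, hb, ne, nj, Finset.Subset.antisymm
      (Finset.subset_compl_iff_disjoint_left.2 (Finset.disjoint_union_right.2 ⟨da, db⟩))
      fun y hy => ?_⟩
    by_contra hy'
    rw [Finset.mem_compl] at hy
    rw [Finset.mem_union, not_or] at hy'
    obtain ⟨x, hx⟩ : w.1.Nonempty := Finset.card_pos.1 (by rw [w.2]; omega)
    have := u ⟨_, swap hk w hx hy⟩
      (mem_N.2 (.inr (Finset.disjoint_insert_left.2 ⟨hy'.1, da.mono_left (Finset.erase_subset _ _)⟩)))
      (mem_N.2 (.inr (Finset.disjoint_insert_left.2 ⟨hy'.2, db.mono_left (Finset.erase_subset _ _)⟩)))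
    exact hy (by rw [← this]; simp)
  obtain ⟨a, ha⟩ : ∃ a, ch a ≤ α := by
    obtain ⟨v, -⟩ := sub ∅ (by simp; omega)
    by_cases hv : α v = 0
    · obtain ⟨a, b, hab⟩ := h v
      have hh := hab v
      simp only [Finsupp.add_apply, Finsupp.single_eq_same, hv] at hh
      by_cases h2 : ch a v = 0
      · refine ⟨a, fun w => ?_⟩
        by_cases hw : w = v
        · subst hw; omega
        · have := off hab w hw; omega
      · refine ⟨b, fun w => ?_⟩
        by_cases hw : w = v
        · subst hw; omega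
        · have := off hab w hw; omega
    · obtain ⟨b, -, hb, -⟩ := key v hv
      exact ⟨b, hb⟩
  have inA : ∀ v ∈ N a, α v ≠ 0 := fun v hv => by
    have := ha v; rw [ch_apply, if_pos hv] at this; omega
  obtain ⟨c, c', hc, -, ne, nj, hu⟩ := key a (inA a (mem_N.2 (.inl rfl)))
  have k1 := Finset.card_union_add_card_inter c.1 c'.1
  have k2 : 0 < (c.1 ∩ c'.1).card :=
    Finset.card_pos.2 (Finset.not_disjoint_iff_nonempty_inter.1 nj)
  rw [hu, Finset.card_compl, a.2, c.2, c'.2, Fintype.card_fin] at k1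
  obtain ⟨y, hy, hy'⟩ : ∃ y ∈ c'.1, y ∉ c.1 := Finset.not_subset.1 fun hs =>
    ne (Subtype.ext (Finset.eq_of_subset_of_card_le hs (by rw [c.2, c'.2])).symm)
  have k3 : (c.1 ∩ c'.1).card < k := by
    exact (Finset.card_lt_card ⟨Finset.inter_subset_right,
      fun hs => hy' (Finset.mem_inter.1 (hs hy)).1⟩).trans_eq c'.2
  refine ⟨by omega, ?_⟩
  by_contra hne
  obtain ⟨x, hx⟩ : c.1.Nonempty := Finset.card_pos.1 (by rw [c.2]; omega)
  have hv : (⟨_, swap hk c hx hy'⟩ : V n k) ∈ N a := mem_N.2 (.inr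
    (Finset.subset_compl_iff_disjoint_right.1 (hu ▸ Finset.insert_subset (by simp [hy])
      ((Finset.erase_subset _ _).trans Finset.subset_union_left))))
  obtain ⟨b, b', hb, hb', -, -, hu'⟩ := key _ (inA _ hv)
  have fin : ∀ b : V n k, ch b ≤ α → b.1 ⊆ (insert y (c.1.erase x))ᶜ → x ∉ b.1 := by
    intro b hb hs hxb
    have i1 : b.1 ∩ c.1 = {x} := by
      ext z
      simp only [Finset.mem_inter, Finset.mem_singleton]
      refine ⟨fun ⟨p, q⟩ => ?_, fun e => e ▸ ⟨hxb, hx⟩⟩
      by_contra hz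
      simpa [hz, q] using hs p
    have i2 := Finset.card_union_add_card_inter b.1 c.1
    rw [i1, b.2, c.2, Finset.card_singleton] at i2
    have nj : ¬ Disjoint b.1 c.1 := fun hd => Finset.disjoint_left.1 hd hxb hx
    obtain ⟨w, p, q⟩ := meet b c hb hc
    rcases mem_N.1 p with rfl | p <;> rcases mem_N.1 q with q | q
    · rw [q, Finset.union_self, c.2] at i2; omega
    · exact nj q
    · exact nj (q ▸ p).symm
    · have := Finset.card_le_univ (w.1 ∪ (b.1 ∪ c.1))
      rw [Finset.card_union_of_disjoint (Finset.disjoint_union_right.2 ⟨p, q⟩), w.2,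
        Fintype.card_fin] at this
      omega
  have : x ∈ b.1 ∪ b'.1 := by
    rw [hu']; simp; rintro rfl; exact hy' hx
  exact (Finset.mem_union.1 this).elim (fin b hb (hu' ▸ Finset.subset_union_left))
    (fin b' hb' (hu' ▸ Finset.subset_union_right))

theorem result (K : Type*) [Field K] (n k : ℕ) (hk : 1 ≤ k) (hn : 2 * k ≤ n) :
    (∃ f : MvPolynomial (V n k) K,
      ∀ p, p ∈ Ideal.span (Set.range (X : V n k → MvPolynomial (V n k) K)) ↔
        p * f ∈ NI K n k ^ 2) ↔ 2 ≤ k ∧ n = 3 * k - 1 := by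
  have hm : ∀ p : MvPolynomial (V n k) K, p ∈ Ideal.span (Set.range X) ↔ coeff 0 p = 0 := fun p => by
    rw [← Set.image_univ, mem_ideal_span_X_image]
    refine ⟨fun h => by_contra fun h0 => by simpa using h 0 (mem_support_iff.2 h0),
      fun h m hm => by_contra fun h0 => ?_⟩
    push Not at h0
    rw [show m = 0 from Finsupp.ext fun i => h0 i trivial] at hm
    exact mem_support_iff.1 hm h
  constructor
  · rintro ⟨f, hf⟩
    have h1 : f ∉ NI K n k ^ 2 := fun h => by simpa [hm] using (hf 1).2 (by simpa using h)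
    rw [mem_sq] at h1
    push Not at h1
    obtain ⟨α, hα, h0⟩ := h1
    refine comb hk hn α h0 fun v => mem_sq.1 ((hf (X v)).1 (Ideal.subset_span ⟨v, rfl⟩)) _ ?_
    rwa [mem_support_iff, coeff_X_mul, ← mem_support_iff]
  · rintro ⟨h2, h3⟩
    let o : V n k →₀ ℕ := Finsupp.equivFunOnFinite.symm fun _ => 1
    have ho : ∀ w, o w = 1 := fun _ => rfl
    refine ⟨monomial o 1, fun p => ?_⟩
    rw [hm, mem_sq]
    refine ⟨fun h0 α hα => ?_, fun h => by_contra fun h0 => ?_⟩
    · rw [mem_support_iff, coeff_mul_monomial'] at hα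
      split_ifs at hα with hle
      swap
      · exact absurd rfl hα
      obtain ⟨v, hv⟩ : ∃ v, (α - o) v ≠ 0 := by
        by_contra hz
        push Not at hz
        rw [show α - o = 0 from Finsupp.ext hz, h0, zero_mul] at hα
        exact hα rfl
      have hc : v.1ᶜ.card = 2 * k - 1 := by rw [Finset.card_compl, v.2, Fintype.card_fin]; omega
      obtain ⟨a, ha, ca⟩ := Finset.exists_subset_card_eq (s := v.1ᶜ) (n := k) (by omega)
      obtain ⟨x, hx⟩ : a.Nonempty := Finset.card_pos.1 (by omega)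
      have cb : (insert x (v.1ᶜ \ a)).card = k := by
        rw [Finset.card_insert_of_notMem (by simp [hx]), Finset.card_sdiff_of_subset ha]; omega
      have i1 : a ∪ insert x (v.1ᶜ \ a) = v.1ᶜ := by
        rw [Finset.union_insert, Finset.union_sdiff_of_subset ha, Finset.insert_eq_of_mem (ha hx)]
      refine ⟨⟨a, ca⟩, ⟨_, cb⟩, fun w => ?_⟩
      have hw := hle w
      simp only [Finsupp.coe_tsub, Pi.sub_apply, ho, Finsupp.add_apply, ch_apply] at hv hw ⊢
      split_ifs with p q q <;> try omega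
      suffices w = v by subst this; omega
      rcases mem_N.1 p with rfl | p <;> rcases mem_N.1 q with q | q
      · have q : a = insert x (v.1ᶜ \ a) := congrArg Subtype.val q
        rw [← q, Finset.union_self] at i1
        rw [← i1] at hc; omega
      · exact absurd (Finset.mem_insert_self _ _) (Finset.disjoint_left.1 q hx)
      · subst q
        exact absurd hx (Finset.disjoint_left.1 p (Finset.mem_insert_self _ _))
      · have := Finset.disjoint_union_right.2 ⟨p, q⟩
        rw [i1] at this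
        exact Subtype.ext (Finset.eq_of_subset_of_card_le
          (by simpa using Finset.subset_compl_iff_disjoint_right.2 this) (by rw [v.2, w.2]))
    · obtain ⟨a, b, hab⟩ := h o (by
        rw [mem_support_iff, coeff_mul_monomial']; simpa using h0)
      obtain ⟨w, p, q⟩ : ∃ w, w ∈ N a ∧ w ∈ N b := by
        by_cases hd : Disjoint a.1 b.1
        · exact ⟨a, mem_N.2 (.inl rfl), mem_N.2 (.inr hd)⟩
        have k1 := Finset.card_union_add_card_inter a.1 b.1
        have k2 : 0 < (a.1 ∩ b.1).card :=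
          Finset.card_pos.2 (Finset.not_disjoint_iff_nonempty_inter.1 hd)
        obtain ⟨t, ht, hc⟩ := Finset.exists_subset_card_eq (s := (a.1 ∪ b.1)ᶜ) (n := k) (by
          rw [Finset.card_compl, Fintype.card_fin]; rw [a.2, b.2] at k1; omega)
        have := Finset.disjoint_union_right.1 (Finset.subset_compl_iff_disjoint_right.1 ht)
        exact ⟨⟨t, hc⟩, mem_N.2 (.inr this.1), mem_N.2 (.inr this.2)⟩
      have := hab w
      simp [ch_apply, p, q, ho] at this

end Pool.Agent.Results.MP_a8e883_al.Kneser
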